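import Pool.Agent.H18.Mo.Kill
import Pool.Agent.H18.It.Val

/-!
# Algebraic independence of the values of the words `0^a y^m`
-/

set_option autoImplicit false
set_option linter.unusedSectionVars false

open PowerSeries Set

namespace Pool.Agent.H18.Po

open Pool.Agent.N902.EW Pool.Agent.H18.Sq Pool.Agent.H18.Mo Pool.Agent.H18.It

section

variable {K : Type*} [Field K] [CharZero K]

/-- the word `0^(k+1) y^(j+1)` -/
noncomputable def zw (y : K) (k j : ℕ) : List K := pre (k + 1) (List.replicate (j + 1) y)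

theorem Ek_pre_lt {y : K} (hy : y ≠ 0) (b : ℕ) : ∀ (r : ℕ) (v : List K), b < r → Ek y b (mq (pre r (y :: v))) = 0 := by
  induction b with
  | zero =>
    intro r v hr
    obtain ⟨r, rfl⟩ : ∃ r', r = r' + 1 := ⟨r - 1, by omega⟩
    rw [Ek_zero, pre_succ, DA_mq_ne (Ne.symm hy)]
  | succ b ih =>
    intro r v hr
    obtain ⟨r, rfl⟩ : ∃ r', r = r' + 1 := ⟨r - 1, by omega⟩
    rw [Ek_succ, ih (r + 1) v (by omega), map_zero, pre_succ, DA_mq_self (Or.inr (pre_ne _ _ _)), ih r v (by omega), sub_zero]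

theorem Ek_pre_eq {y : K} (hy : y ≠ 0) (b : ℕ) (v : List K) : Ek y b (mq (pre b (y :: v))) = ((-1) ^ b : K) • mq v := by
  induction b with
  | zero => rw [Ek_zero, pre_zero, DA_mq_self (Or.inl hy), pow_zero, one_smul]
  | succ b ih =>
    rw [Ek_succ, Ek_pre_lt hy b (b + 1) v (Nat.lt_succ_self b), map_zero, pre_succ, DA_mq_self (Or.inr (pre_ne _ _ _)), ih,
      zero_sub, pow_succ, mul_neg_one, neg_smul]

/-- the dual derivations -/
noncomputable def PD (y : K) (a : ℕ) : ℕ → DD K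
  | 0 => Ek y a
  | j + 1 => ⁅DA y, PD y a j⁆

theorem PD_apply {y : K} (hy : y ≠ 0) (k j : ℕ) : ∀ i : ℕ,
    PD y (k + 1) j (mq (pre (k + 1) (List.replicate (j + 1 + i) y))) = ((-1) ^ (k + 1) : K) • mq (List.replicate i y) := by
  induction j with
  | zero =>
    intro i
    have e : List.replicate (0 + 1 + i) y = y :: List.replicate i y := by
      rw [show 0 + 1 + i = i + 1 by omega, List.replicate_succ]
    rw [e, PD, Ek_pre_eq hy]
  | succ j ih =>
    intro i
    have e : j + 1 + 1 + i = j + 1 + (i + 1) := by omega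
    rw [PD, Derivation.commutator_apply, e, ih (i + 1)]
    have h0 : DA y (mq (pre (k + 1) (List.replicate (j + 1 + (i + 1)) y))) = 0 := by
      rw [pre_succ, DA_mq_ne (Ne.symm hy)]
    rw [h0, map_zero, sub_zero, Derivation.map_smul, List.replicate_succ, DA_mq_self (Or.inl hy)]

theorem PD_zw {y : K} (hy : y ≠ 0) (k j : ℕ) : PD y (k + 1) j (mq (zw y k j)) = ((-1) ^ (k + 1) : K) • mq [] := by
  have := PD_apply hy k j 0
  rwa [add_zero, List.replicate_zero] at this

theorem Lw0_Ek (y : K) (a : ℕ) : Lw 0 a (Ek y a) := by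
  induction a with
  | zero => exact Lw_DA _ _
  | succ a ih =>
    have h := (Lw_DA_self (0 : K)).comm ih
    rw [Ek_def]
    rwa [add_comm 1 a] at h

theorem Lw0_PD (y : K) (a j : ℕ) : Lw 0 a (PD y a j) := by
  induction j with
  | zero => exact Lw0_Ek y a
  | succ j ih =>
    have h := (Lw_DA y (0 : K)).comm ih
    rw [PD]
    rwa [zero_add] at h

theorem Lwy_PD (y : K) (a j : ℕ) : Lw y (j + 1) (PD y a j) := by
  induction j with
  | zero => exact Lw_Ek_self y a
  | succ j ih =>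
    have h := (Lw_DA_self y).comm ih
    rw [PD]
    rwa [add_comm 1 (j + 1)] at h

theorem ct_rep_self (y : K) (m : ℕ) : ct y (List.replicate m y) = m := by
  induction m with
  | zero => rfl
  | succ m ih => rw [List.replicate_succ, ct_cons_self, ih]

theorem ct0_zw {y : K} (hy : y ≠ 0) (k j : ℕ) : ct 0 (zw y k j) = k + 1 := by
  have h1 : ∀ (a : ℕ) (v : List K), ct 0 (pre a v) = a + ct 0 v := by
    intro a v
    induction a with
    | zero => rw [pre_zero, zero_add]
    | succ a ih => rw [pre_succ, ct_cons_self, ih]; omega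
  rw [zw, h1, ct_zero (fun h => hy (List.eq_of_mem_replicate h).symm), add_zero]

theorem cty_zw {y : K} (hy : y ≠ 0) (k j : ℕ) : ct y (zw y k j) = j + 1 := by
  rw [zw, ct_pre hy, ct_rep_self]

theorem ctx_zw {x y : K} (hx : x ≠ 0) (hxy : x ≠ y) (k j : ℕ) : ct x (zw y k j) = 0 := by
  rw [zw, ct_pre hx, ct_zero (fun h => hxy (List.eq_of_mem_replicate h))]

theorem PD_kill {x y : K} (hx : x ≠ 0) (hy : y ≠ 0) {k j k' j' : ℕ} (h : x ≠ y ∨ k' < k ∨ j' < j) :
    PD x (k + 1) j (mq (zw y k' j')) = 0 := by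
  by_cases hxy : x = y
  · subst hxy
    rcases h with h | h | h
    · exact absurd rfl h
    · exact (Lw0_PD x (k + 1) j).kill (mq_mem_Cn (by rw [ct0_zw hx]; omega))
    · exact (Lwy_PD x (k + 1) j).kill (mq_mem_Cn (by rw [cty_zw hx]; omega))
  · exact (Lwy_PD x (k + 1) j).kill (mq_mem_Cn (by rw [ctx_zw hx hxy]; omega))

theorem PD_kill_word {x : K} (k j : ℕ) (l : K) {w : List K} (hw : Adm w) (h : (0 : K) ∉ w ∨ x ∉ w) :
    PD x (k + 1) j (mk l w hw) = 0 := by
  rcases h with h | h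
  · exact (Lw0_PD x (k + 1) j).kill (mk_mem_Cn l hw (by rw [ct_zero h]; omega))
  · exact (Lwy_PD x (k + 1) j).kill (mk_mem_Cn l hw (by rw [ct_zero h]; omega))

theorem adm_zw {y : K} (hy : y ≠ 0) (k j : ℕ) : Adm (zw y k j) := by
  have h1 : ∀ m : ℕ, Adm (List.replicate (m + 1) y) := by
    intro m
    induction m with
    | zero => exact adm_single hy
    | succ m ih =>
      rw [List.replicate_succ]
      exact adm_cons ih (by rw [List.replicate_succ]; simp)
  exact (adm_pre (h1 j) (by rw [List.replicate_succ]; simp)).1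

end

/-! ### Values -/

/-- the generators of the base field -/
def gP (S : Set Qb) : Set ℂ := GE ∪ {z | ∃ w : List Qb, Adm w ∧ ((0 : Qb) ∉ w ∨ ∀ c ∈ w, c ∉ S) ∧ z = uv w}

theorem killed_gP {S : Set Qb} {z : ℂ} (hz : z ∈ gP S) :
    ∃ f : AA Qb, evA io f = z ∧ ∀ x ∈ S, ∀ k j : ℕ, PD x (k + 1) j f = 0 := by
  rcases hz with (hz | ⟨b, hb, rfl⟩) | ⟨w, hw, hS, rfl⟩
  · refine ⟨algebraMap Qb (AA Qb) ⟨z, mem_algebraicClosure_iff'.2 hz.isIntegral⟩, evA_algebraMap _, fun x _ k j => ?_⟩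
    exact Derivation.map_algebraMap _ _
  · refine ⟨mk ⟨b, mem_algebraicClosure_iff'.2 hb.isIntegral⟩ [] adm_nil, ?_,
      fun x _ k j => PD_kill_word k j _ _ (Or.inl (by simp))⟩
    rw [evA_mk, U_nil, evk_one, mul_one, evk_ex]
    rfl
  · refine ⟨mk 0 w hw, evA_mk0 w hw, fun x hx k j => PD_kill_word k j _ _ ?_⟩
    rcases hS with h | h
    · exact Or.inl h
    · exact Or.inr fun h' => h x h' hx

theorem mq_nil_neP : (mq [] : AA Qb) ≠ 0 := by
  intro h
  rw [mq_eq adm_nil] at h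
  have h3 := congrArg (evA io) h
  rw [evA_mk, evk_ex_zero, U_nil, evk_one, map_zero, mul_one] at h3
  exact one_ne_zero h3

/-- the values of lower level -/
def SVp (S : Set Qb) (d : ℕ) : Set ℂ := {z | ∃ (y : S) (k j : ℕ), k + j < d ∧ z = evA io (mq (zw y.1 k j))}

theorem ai_lev {S : Set Qb} (hS : ∀ c ∈ S, c ≠ 0) (d : ℕ) :
    AlgebraicIndependent (IntermediateField.adjoin ℚ (gP S ∪ SVp S d))
      (fun p : S × {q : ℕ × ℕ // q.1 + q.2 = d} => evA io (mq (zw p.1.1 p.2.1.1 p.2.1.2))) := by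
  refine ai_general (gP S ∪ SVp S d) (fun p : S × {q : ℕ × ℕ // q.1 + q.2 = d} => mq (zw p.1.1 p.2.1.1 p.2.1.2))
    (fun p => PD p.1.1 (p.2.1.1 + 1) p.2.1.2) (fun z hz => ?_)
    (fun p => ((-1) ^ (p.2.1.1 + 1) : Qb) • mq []) (fun p => ?_) (fun p => ?_) (fun p r hpr => ?_)
  · rcases hz with hz | ⟨y, k, j, hkj, rfl⟩
    · obtain ⟨f, hf, hf'⟩ := killed_gP hz
      exact ⟨f, hf, fun p => hf' _ p.1.2 _ _⟩
    · refine ⟨_, rfl, fun p => PD_kill (hS _ p.1.2) (hS _ y.2) ?_⟩
      have := p.2.2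
      right
      omega
  · exact smul_ne_zero (pow_ne_zero _ (by norm_num)) mq_nil_neP
  · exact PD_zw (hS _ p.1.2) _ _
  · refine PD_kill (hS _ p.1.2) (hS _ r.1.2) ?_
    by_cases h1 : p.1.1 = r.1.1
    · right
      have h2 := p.2.2
      have h3 := r.2.2
      by_contra hcon
      apply hpr
      refine Prod.ext (Subtype.ext h1) (Subtype.ext (Prod.ext ?_ ?_)) <;> omega
    · exact Or.inl h1

end Pool.Agent.H18.Po
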