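import Pool.Agent.H18.Po.Int

/-!
# The independence and the counting theorem
-/

set_option autoImplicit false
set_option linter.unusedSectionVars false

open Set

namespace Pool.Agent.H18.Po

open Pool.Agent.N902.EW Pool.Agent.H18.Sq Pool.Agent.H18.Mo Pool.Agent.H18.It
open Pool.Agent.H18.Wd (rk_ge cnt trdeg_of_eRk)

theorem ai_upto {S : Set Qb} (hS : ∀ c ∈ S, c ≠ 0) (n : ℕ) :
    AlgebraicIndependent (IntermediateField.adjoin ℚ (gP S))
      (fun p : {p : S × (ℕ × ℕ) // p.2.1 + p.2.2 < n} => evA io (mq (zw p.1.1.1 p.1.2.1 p.1.2.2))) := by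
  induction n with
  | zero =>
    have : IsEmpty {p : S × (ℕ × ℕ) // p.2.1 + p.2.2 < 0} := ⟨fun p => absurd p.2 (Nat.not_lt_zero _)⟩
    exact algebraicIndependent_empty_type
  | succ n ih =>
    have hle : IntermediateField.adjoin ℚ (gP S) ≤ IntermediateField.adjoin ℚ (gP S ∪ SVp S n) :=
      IntermediateField.adjoin.mono _ _ _ subset_union_left
    let _ : Algebra (IntermediateField.adjoin ℚ (gP S)) (IntermediateField.adjoin ℚ (gP S ∪ SVp S n)) :=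
      (IntermediateField.inclusion hle).toRingHom.toAlgebra
    have : IsScalarTower (IntermediateField.adjoin ℚ (gP S)) (IntermediateField.adjoin ℚ (gP S ∪ SVp S n)) ℂ :=
      IsScalarTower.of_algebraMap_eq fun _ => rfl
    have h := ih.sumElim_of_tower (S := IntermediateField.adjoin ℚ (gP S ∪ SVp S n)) (by
      rintro _ ⟨p, rfl⟩
      exact ⟨⟨_, IntermediateField.subset_adjoin _ _ (Or.inr ⟨p.1.1, p.1.2.1, p.1.2.2, p.2, rfl⟩)⟩, rfl⟩)
      (ai_lev hS n)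
    let g : {p : S × (ℕ × ℕ) // p.2.1 + p.2.2 < n + 1} →
        (S × {q : ℕ × ℕ // q.1 + q.2 = n}) ⊕ {p : S × (ℕ × ℕ) // p.2.1 + p.2.2 < n} := fun p =>
      if h : p.1.2.1 + p.1.2.2 = n then Sum.inl (p.1.1, ⟨p.1.2, h⟩) else
        Sum.inr ⟨p.1, by have := p.2; omega⟩
    have hg : Function.Injective g := by
      intro p q hpq
      by_cases h1 : p.1.2.1 + p.1.2.2 = n
      · by_cases h2 : q.1.2.1 + q.1.2.2 = n
        · simp only [g, dif_pos h1, dif_pos h2] at hpq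
          have h3 := Sum.inl.inj hpq
          have h4 := congrArg Prod.fst h3
          have h5 := congrArg (fun z => z.2.1) h3
          exact Subtype.ext (Prod.ext h4 h5)
        · simp only [g, dif_pos h1, dif_neg h2] at hpq
          exact absurd hpq (by simp)
      · by_cases h2 : q.1.2.1 + q.1.2.2 = n
        · simp only [g, dif_neg h1, dif_pos h2] at hpq
          exact absurd hpq (by simp)
        · simp only [g, dif_neg h1, dif_neg h2] at hpq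
          have h3 := Sum.inr.inj hpq
          have h4 := congrArg Subtype.val h3
          exact Subtype.ext h4
    have h2 := h.comp g hg
    convert h2 using 1
    funext p
    by_cases h1 : p.1.2.1 + p.1.2.2 = n
    · simp only [g, Function.comp, dif_pos h1, Sum.elim_inl]
    · simp only [g, Function.comp, dif_neg h1, Sum.elim_inr]

/-- the base field -/
noncomputable def FP (S : Set Qb) : IntermediateField ℚ ℂ := IntermediateField.adjoin ℚ (gP S)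

theorem ai_all {S : Set Qb} (hS : ∀ c ∈ S, c ≠ 0) :
    AlgebraicIndependent (FP S) (fun p : S × (ℕ × ℕ) => uv (zw p.1.1 p.2.1 p.2.2)) := by
  have h0 : (fun p : S × (ℕ × ℕ) => uv (zw p.1.1 p.2.1 p.2.2)) =
      fun p : S × (ℕ × ℕ) => evA io (mq (zw p.1.1 p.2.1 p.2.2)) := by
    funext p
    have h := adm_zw (hS _ p.1.2) p.2.1 p.2.2
    rw [mq_eq h, evA_mk0]
  rw [h0]
  refine algebraicIndependent_of_finite_type fun T hT => ?_
  obtain ⟨N, hN⟩ : ∃ N : ℕ, ∀ p ∈ T, p.2.1 + p.2.2 < N := by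
    obtain ⟨N, hN⟩ := (hT.image fun p => p.2.1 + p.2.2).bddAbove
    exact ⟨N + 1, fun p hp => Nat.lt_succ_of_le (hN ⟨p, hp, rfl⟩)⟩
  refine (ai_upto hS N).comp (fun p : T => (⟨p.1, hN p.1 p.2⟩ : {p : S × (ℕ × ℕ) // p.2.1 + p.2.2 < N})) ?_
  intro p q hpq
  have h4 := congrArg Subtype.val hpq
  exact Subtype.ext h4

/-- the negative real algebraic numbers -/
def Sn : Set Qb := {c | ∃ x : ℝ, 0 < x ∧ io c = -(x : ℂ)}

theorem Sn_ne : ∀ c ∈ Sn, c ≠ 0 := by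
  rintro c ⟨x, hx, hc⟩ rfl
  rw [map_zero] at hc
  have : (x : ℂ) = 0 := by rw [← neg_eq_zero, ← hc]
  exact hx.ne' (by exact_mod_cast this)

/-- the exponents -/
def Vx : Set ℝ := {b | IsAlgebraic (FP Sn) (b : ℂ) ∧ IsAlgebraic ℚ (Real.exp b)}

theorem zero_mem_Vx : (0 : ℝ) ∈ Vx := by
  refine ⟨?_, ?_⟩
  · rw [Complex.ofReal_zero]; exact isAlgebraic_zero
  · rw [Real.exp_zero]; exact isAlgebraic_one

/-- the element `-x` -/
noncomputable def ng {x : ℝ} (hx : IsAlgebraic ℚ x) : Qb :=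
  ⟨-(x : ℂ), mem_algebraicClosure_iff'.2 (hx.algebraMap (A := ℂ)).neg.isIntegral⟩

theorem io_ng {x : ℝ} (hx : IsAlgebraic ℚ x) : io (ng hx) = -(x : ℂ) := rfl

theorem ng_ne {x : ℝ} (hx : IsAlgebraic ℚ x) (h0 : 0 < x) : ng hx ≠ 0 := Sn_ne _ ⟨x, h0, io_ng hx⟩

/-- the element `exp b` -/
noncomputable def xb {b : ℝ} (hb : IsAlgebraic ℚ (Real.exp b)) : Qb :=
  ⟨((Real.exp b : ℝ) : ℂ), mem_algebraicClosure_iff'.2 (hb.algebraMap (A := ℂ)).isIntegral⟩

theorem io_xb {b : ℝ} (hb : IsAlgebraic ℚ (Real.exp b)) : io (xb hb) = Complex.exp b := by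
  show ((Real.exp b : ℝ) : ℂ) = _
  push_cast
  rfl

theorem xb_ne {b : ℝ} (hb : IsAlgebraic ℚ (Real.exp b)) : xb hb ≠ 0 := by
  intro h
  have := congrArg io h
  rw [io_xb, map_zero] at this
  exact Complex.exp_ne_zero _ this

theorem sc_pre (a : Qb) (n : ℕ) (v : List Qb) : sc a (pre n v) = pre n (sc a v) := by
  induction n with
  | zero => rfl
  | succ n ih =>
    rw [pre_succ, pre_succ, ← ih, sc, sc, List.map_cons, mul_zero]

theorem Wf_at {y : Qb} {b : ℝ} (hb : IsAlgebraic ℚ (Real.exp b)) (k j : ℕ) :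
    Wf y (k + 1) (j + 1) b = uv (zw (xb hb * y) k j) := by
  rw [Wf, hw_at (xb_ne hb) (io_xb hb), sc_pre, zw]
  congr 2
  rw [sc, List.map_replicate]

open Classical in
/-- the numbers -/
noncomputable def nP (x b : ℝ) (q : ℕ × ℕ) : ℂ :=
  if b = 0 then (if hx : IsAlgebraic ℚ x then uv (zw (ng hx) q.1 q.2) else 0) else
    ((∫ s in (0 : ℝ)..b, s ^ q.1 * E1 (x * Real.exp s) ^ (q.2 + 1) : ℝ) : ℂ)

theorem nP_zero {x : ℝ} (hx : IsAlgebraic ℚ x) (q : ℕ × ℕ) : nP x 0 q = uv (zw (ng hx) q.1 q.2) := by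
  rw [nP, if_pos rfl, dif_pos hx]

theorem nP_ne {x b : ℝ} (hx : IsAlgebraic ℚ x) (h0 : 0 < x) (hb : b ≠ 0) (q : ℕ × ℕ) :
    nP x b q = Qn (ng hx) ((E1 x : ℂ) + uv [ng hx]) b q.1 (q.2 + 1) 0 := by
  rw [nP, if_neg hb, Qn, ← intervalIntegral.integral_ofReal]
  refine intervalIntegral.integral_congr fun s _ => ?_
  show ((s ^ q.1 * E1 (x * Real.exp s) ^ (q.2 + 1) : ℝ) : ℂ) = _
  rw [← ep_eq h0 (io_ng hx)]
  push_cast
  ring

/-- the numbers of the family -/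
noncomputable def tP {X : Set ℝ} (p : (X × Vx) × (ℕ × ℕ)) : ℂ := nP p.1.1 p.1.2 p.2

theorem uv_mem_FP {y : Qb} (hy : y ≠ 0) : uv [y] ∈ FP Sn := by
  refine IntermediateField.subset_adjoin _ _ (Or.inr ⟨[y], adm_single hy, Or.inl ?_, rfl⟩)
  simp only [List.mem_singleton]
  exact fun h => hy h.symm

section

variable {X : Set ℝ} (hX : ∀ x ∈ X, 0 < x ∧ IsAlgebraic ℚ x)
  (hXX : ∀ x ∈ X, ∀ y ∈ X, ∀ b ∈ Vx, x = y * Real.exp b → x = y)
include hX

/-- the values of the words at the point `x e^b` -/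
noncomputable def sP (p : (X × Vx) × (ℕ × ℕ)) : ℂ := Wf (ng (hX _ p.1.1.2).2) (p.2.1 + 1) (p.2.2 + 1) p.1.2

include hXX in
theorem ai_sP : AlgebraicIndependent (FP Sn) (sP hX) := by
  have hmem : ∀ p : X × Vx, xb p.2.2.2 * ng (hX _ p.1.2).2 ∈ Sn := by
    intro p
    refine ⟨p.1.1 * Real.exp p.2.1, mul_pos (hX _ p.1.2).1 (Real.exp_pos _), ?_⟩
    rw [map_mul, io_xb, io_ng]
    push_cast
    ring
  let g : (X × Vx) × (ℕ × ℕ) → Sn × (ℕ × ℕ) := fun p => (⟨_, hmem p.1⟩, p.2)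
  have hg : Function.Injective g := by
    rintro ⟨⟨⟨x, hx⟩, ⟨b, hb⟩⟩, q⟩ ⟨⟨⟨y, hy⟩, ⟨c, hc⟩⟩, r⟩ h
    have h1 : q = r := congrArg Prod.snd h
    have h2 : io (xb hb.2 * ng (hX _ hx).2) = io (xb hc.2 * ng (hX _ hy).2) := congrArg (fun z => io z.1.1) h
    rw [map_mul, map_mul, io_xb, io_xb, io_ng, io_ng] at h2
    have h3 : Real.exp b * x = Real.exp c * y := by
      have h4 : ((Real.exp b * x : ℝ) : ℂ) = ((Real.exp c * y : ℝ) : ℂ) := by
        push_cast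
        linear_combination -h2
      exact_mod_cast h4
    have h5 : x = y * Real.exp (c - b) := by
      rw [Real.exp_sub, mul_div_assoc', eq_div_iff (Real.exp_pos b).ne']
      linarith
    have hcb : c - b ∈ Vx := by
      refine ⟨?_, ?_⟩
      · push_cast
        exact hc.1.sub hb.1
      · rw [Real.exp_sub, div_eq_mul_inv]
        exact hc.2.mul hb.2.inv
    have h6 := hXX x hx y hy _ hcb h5
    subst h6
    have h7 : b = c := by
      have h8 : Real.exp b = Real.exp c := mul_right_cancel₀ (hX x hx).1.ne' h3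
      exact Real.exp_injective h8
    subst h7 h1
    rfl
  have h := (ai_all Sn_ne).comp g hg
  have e : (fun p : Sn × (ℕ × ℕ) => uv (zw p.1.1 p.2.1 p.2.2)) ∘ g = sP hX := by
    funext p
    show uv (zw (xb p.1.2.2.2 * ng (hX _ p.1.1.2).2) p.2.1 p.2.2) = Wf _ _ _ _
    rw [Wf_at]
  rw [e] at h
  exact h

theorem tri_P {Y : Set ℂ} (hY : ∀ x ∈ X, ((E1 x : ℝ) : ℂ) ∈ clf (FP Sn) Y) (i : (X × Vx) × (ℕ × ℕ)) :
    ∃ D : Finset ((X × Vx) × (ℕ × ℕ)), i ∈ D ∧ ∀ j ∈ D, sP hX j ∈ clf (FP Sn) (Y ∪ tP '' (D : Set ((X × Vx) × (ℕ × ℕ)))) := by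
  classical
  obtain ⟨⟨⟨x, hx⟩, ⟨b, hb⟩⟩, ⟨k0, j0⟩⟩ := i
  set N := k0 + (j0 + 1) with hN
  let R : Finset (ℕ × ℕ) := ((Finset.range (N + 1)) ×ˢ (Finset.range (N + 1))).filter fun q => q.1 + (q.2 + 1) ≤ N
  have hR : ∀ q : ℕ × ℕ, q ∈ R ↔ q.1 + (q.2 + 1) ≤ N := by
    intro q
    simp only [R, Finset.mem_filter, Finset.mem_product, Finset.mem_range]
    constructor
    · exact fun h => h.2
    · intro h; exact ⟨⟨by omega, by omega⟩, h⟩
  let D : Finset ((X × Vx) × (ℕ × ℕ)) := ({((⟨x, hx⟩ : X), (⟨b, hb⟩ : Vx)), (⟨x, hx⟩, ⟨0, zero_mem_Vx⟩)} : Finset (X × Vx)) ×ˢ R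
  refine ⟨D, ?_, ?_⟩
  · simp only [D, Finset.mem_product, Finset.mem_insert, true_or, true_and]
    exact (hR _).2 le_rfl
  set L := (clf (FP Sn) (Y ∪ tP '' (D : Set ((X × Vx) × (ℕ × ℕ))))) with hL
  have hxa := (hX x hx).2
  have hx0 := (hX x hx).1
  have hLt : ∀ j ∈ D, tP j ∈ L := fun j hj => subset_clf _ (Or.inr ⟨j, hj, rfl⟩)
  have hc : ((E1 x : ℝ) : ℂ) + uv [ng hxa] ∈ L := by
    refine L.add_mem (clf_mono subset_union_left (hY x hx)) ?_
    exact clf_of_alg (isAlgebraic_algebraMap (⟨_, uv_mem_FP (ng_ne hxa hx0)⟩ : FP Sn))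
  have hbL : (b : ℂ) ∈ L := clf_of_alg hb.1
  have m0 : ∀ k j : ℕ, k + (j + 1) ≤ N → Wf (ng hxa) (k + 1) (j + 1) 0 ∈ L := by
    intro k j hkj
    have h1 := hLt ((⟨x, hx⟩, ⟨0, zero_mem_Vx⟩), (k, j)) (by
      simp only [D, Finset.mem_product, Finset.mem_insert, Finset.mem_singleton, or_true, true_and]
      exact (hR _).2 hkj)
    have h2 : tP ((⟨x, hx⟩, ⟨0, zero_mem_Vx⟩), (k, j)) = Wf (ng hxa) (k + 1) (j + 1) 0 := by
      rw [tP, nP_zero hxa, Wf_zero]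
      rfl
    rwa [h2] at h1
  have m1 : ∀ k j : ℕ, k + (j + 1) ≤ N → Wf (ng hxa) (k + 1) (j + 1) b ∈ L := by
    by_cases hb0 : b = 0
    · rw [hb0]; exact m0
    · refine Wf_mem_of (L := L) (c := ((E1 x : ℝ) : ℂ) + uv [ng hxa]) (ng_ne hxa hx0) hbL hc (fun n p hp hnp => ?_) m0
      obtain ⟨p, rfl⟩ : ∃ p', p = p' + 1 := ⟨p - 1, by omega⟩
      have h1 := hLt ((⟨x, hx⟩, ⟨b, hb⟩), (n, p)) (by
        simp only [D, Finset.mem_product, Finset.mem_insert, true_or, true_and]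
        exact (hR _).2 hnp)
      have h2 : tP ((⟨x, hx⟩, ⟨b, hb⟩), (n, p)) = Qn (ng hxa) (((E1 x : ℝ) : ℂ) + uv [ng hxa]) b n (p + 1) 0 := by
        rw [tP, nP_ne hxa hx0 hb0]
      rwa [h2] at h1
  rintro ⟨p, ⟨k, j⟩⟩ hj
  simp only [D, Finset.mem_product, Finset.mem_insert, Finset.mem_singleton] at hj
  obtain ⟨hp, hq⟩ := hj
  have hq' := (hR _).1 hq
  rcases hp with rfl | rfl
  · exact m1 k j hq'
  · exact m0 k j hq'

include hXX

/-- the degree of transcendence -/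
theorem deg_P {τ : Type} {y : τ → ℂ} (hY : ∀ x ∈ X, ((E1 x : ℝ) : ℂ) ∈ clf (FP Sn) (range y))
    (A : Finset ((X × Vx) × (ℕ × ℕ))) : (A.card : Cardinal) ≤ Algebra.trdeg (FP Sn)
      (IntermediateField.adjoin (FP Sn) (range y ∪ tP '' (A : Set ((X × Vx) × (ℕ × ℕ))))) :=
  trdeg_of_eRk (rk_ge (ai_sP hX hXX) (tri_P hX hY) A)

/-- the number of the algebraic ones -/
theorem cnt_P {τ : Type} [Fintype τ] {y : τ → ℂ} (hY : ∀ x ∈ X, ((E1 x : ℝ) : ℂ) ∈ clf (FP Sn) (range y)) :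
    {n : τ ⊕ ((X × Vx) × (ℕ × ℕ)) | Sum.elim (fun j => IsAlgebraic (FP Sn) (y j)) (fun i => IsAlgebraic (FP Sn) (tP i)) n}.encard ≤
      (Fintype.card τ : ℕ∞) :=
  cnt (ai_sP hX hXX) (tri_P hX hY)

end

end Pool.Agent.H18.Po
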