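import Pool.Agent.H18.Po.Dual
import Pool.Agent.H18.Wd.Cnt

/-!
# Integrals of powers of the exponential integral
-/

set_option autoImplicit false
set_option linter.unusedSectionVars false

open Set MeasureTheory

namespace Pool.Agent.H18.Po

open Pool.Agent.N902.EW Pool.Agent.H18.Sq Pool.Agent.H18.Mo Pool.Agent.H18.It

/-- the exponential integral -/
noncomputable def E1 (t : ℝ) : ℝ := ∫ u in Ioi t, Real.exp (-u) / u

theorem E1_int {x : ℝ} (hx : 0 < x) : IntegrableOn (fun u : ℝ => Real.exp (-u) / u) (Ioi x) := by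
  have h1 := (exp_neg_integrableOn_Ioi x (zero_lt_one (α := ℝ))).const_mul (1 / x)
  refine Integrable.mono' h1 ?_ ?_
  · refine ContinuousOn.aestronglyMeasurable ?_ measurableSet_Ioi
    exact ContinuousOn.div (Real.continuous_exp.comp continuous_neg).continuousOn continuousOn_id
      fun u hu => (hx.trans hu).ne'
  · filter_upwards [ae_restrict_mem measurableSet_Ioi] with u hu
    have hu' : x < u := hu
    have h0 : 0 < u := hx.trans hu'
    rw [Real.norm_eq_abs, abs_of_nonneg (by positivity), neg_one_mul, div_eq_mul_inv, mul_comm]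
    refine mul_le_mul_of_nonneg_right ?_ (Real.exp_pos _).le
    rw [one_div]
    exact inv_anti₀ hx hu'.le

theorem E1_sub {x t : ℝ} (hx : 0 < x) (ht : 0 < t) : E1 t = E1 x - ∫ u in x..t, Real.exp (-u) / u := by
  have h := intervalIntegral.integral_Ioi_sub_Ioi' (E1_int hx) (E1_int ht)
  rw [← h, E1, E1]
  ring

theorem E1_deriv {t : ℝ} (ht : 0 < t) : HasDerivAt E1 (-(Real.exp (-t) / t)) t := by
  have hc : ContinuousOn (fun u : ℝ => Real.exp (-u) / u) (Ioi 0) :=
    ContinuousOn.div (Real.continuous_exp.comp continuous_neg).continuousOn continuousOn_id fun u hu => ne_of_gt hu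
  have h1 : HasDerivAt (fun s : ℝ => ∫ u in t..s, Real.exp (-u) / u) (Real.exp (-t) / t) t := by
    refine intervalIntegral.integral_hasDerivAt_right (by simp) ?_ (hc.continuousAt (Ioi_mem_nhds ht))
    exact hc.stronglyMeasurableAtFilter isOpen_Ioi t ht
  have h2 : HasDerivAt (fun s : ℝ => E1 t - ∫ u in t..s, Real.exp (-u) / u) (-(Real.exp (-t) / t)) t := by
    have := (hasDerivAt_const t (E1 t)).sub h1
    rwa [zero_sub] at this
  refine h2.congr_of_eventuallyEq ?_
  filter_upwards [Ioi_mem_nhds ht] with s hs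
  exact E1_sub ht hs

theorem E1_exp_deriv {x : ℝ} (hx : 0 < x) (s : ℝ) :
    HasDerivAt (fun s : ℝ => E1 (x * Real.exp s)) (-Real.exp (-(x * Real.exp s))) s := by
  have hp : 0 < x * Real.exp s := mul_pos hx (Real.exp_pos s)
  have h1 := (E1_deriv hp).comp s ((Real.hasDerivAt_exp s).const_mul x)
  refine HasDerivAt.congr_deriv h1 ?_
  field_simp

/-- the functions of the words `0^a y^m` -/
noncomputable def Wf (y : Qb) (a m : ℕ) (s : ℝ) : ℂ := hw (pre a (List.replicate m y)) s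

theorem Wf_continuous (y : Qb) (a m : ℕ) : Continuous (Wf y a m) := hw_continuous _

theorem Wf_zero (y : Qb) (a m : ℕ) : Wf y a m 0 = uv (pre a (List.replicate m y)) := hw_zero _

theorem adm_rep {y : Qb} (hy : y ≠ 0) : ∀ m : ℕ, Adm (List.replicate (m + 1) y) := by
  intro m
  induction m with
  | zero => exact adm_single hy
  | succ m ih =>
    rw [List.replicate_succ]
    exact adm_cons ih (by rw [List.replicate_succ]; simp)

theorem Wf_deriv_succ {y : Qb} (hy : y ≠ 0) (a m : ℕ) (s : ℝ) : HasDerivAt (Wf y (a + 1) (m + 1)) (Wf y a (m + 1) s) s := by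
  have h := hw_deriv (a := 0) (v := pre a (List.replicate (m + 1) y))
    (adm_pre (m := a + 1) (adm_rep hy m) (by rw [List.replicate_succ]; simp)).1 s
  rw [ph, if_pos rfl, one_mul] at h
  exact h

theorem Wf_deriv_zero {y : Qb} (hy : y ≠ 0) (m : ℕ) (s : ℝ) : HasDerivAt (Wf y 0 (m + 1)) (ph y s * Wf y 0 m s) s := by
  have h := hw_deriv (a := y) (v := List.replicate m y) (by rw [← List.replicate_succ]; exact adm_rep hy m) s
  rw [← List.replicate_succ] at h
  exact h

section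

open PowerSeries

theorem th_pow' (f : (Qb : Type)⟦X⟧) (n : ℕ) : th (f ^ (n + 1)) = ((n : (Qb : Type)⟦X⟧) + 1) * f ^ n * th f := by
  induction n with
  | zero => simp
  | succ n ih =>
    rw [pow_succ f (n + 1), th_mul, ih]
    push_cast
    ring

theorem th_inj {f g : (Qb : Type)⟦X⟧} (hf : coeff 0 f = 0) (hg : coeff 0 g = 0) (h : th f = th g) : f = g := by
  rw [← ig_th hf, ← ig_th hg, h]

theorem U_rep {y : Qb} (hy : y ≠ 0) (m : ℕ) : (U [y] : (Qb : Type)⟦X⟧) ^ m = (m.factorial : (Qb : Type)⟦X⟧) * U (List.replicate m y) := by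
  induction m with
  | zero => rw [pow_zero, List.replicate_zero, U_nil, Nat.factorial_zero, Nat.cast_one, one_mul]
  | succ m ih =>
    refine th_inj ?_ ?_ ?_
    · rw [pow_succ, coeff_zero_eq_constantCoeff_apply, map_mul, ← coeff_zero_eq_constantCoeff_apply (φ := U [y]),
        coeff_zero_U (by simp), mul_zero]
    · rw [coeff_zero_eq_constantCoeff_apply, map_mul,
        ← coeff_zero_eq_constantCoeff_apply (φ := U (List.replicate (m + 1) y)),
        coeff_zero_U (by rw [List.replicate_succ]; simp), mul_zero]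
    · have h1 : th (U [y] : (Qb : Type)⟦X⟧) = lt y := by
        rw [th_U_cons (adm_single hy), U_nil, mul_one]
      have h2 : th (U (List.replicate (m + 1) y) : (Qb : Type)⟦X⟧) = lt y * U (List.replicate m y) := by
        rw [List.replicate_succ, th_U_cons]
        rw [← List.replicate_succ]
        exact adm_rep hy m
      have h3 : th (((m + 1).factorial : (Qb : Type)⟦X⟧)) = 0 := by
        have : (((m + 1).factorial : (Qb : Type)⟦X⟧)) = C ((m + 1).factorial : Qb) := by simp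
        rw [this]
        ext n
        rw [coeff_th, coeff_C]
        rcases n with _ | n
        · simp
        · simp
      rw [th_pow', h1, ih, th_mul, h2, h3, zero_mul, zero_add, Nat.factorial_succ]
      push_cast
      ring

end

theorem Wf_pow {y : Qb} (hy : y ≠ 0) (m : ℕ) (s : ℝ) : Wf y 0 1 s ^ m = (m.factorial : ℂ) * Wf y 0 m s := by
  have hp : ∀ n : ℕ, vl ((U [y] : PowerSeries Qb) ^ n) (Complex.exp s) = Wf y 0 1 s ^ n ∧
      EFK io ((U [y] : PowerSeries Qb) ^ n) := by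
    intro n
    induction n with
    | zero => exact ⟨by rw [pow_zero, pow_zero, vl_one], by rw [pow_zero]; exact EFK.one⟩
    | succ n ih =>
      refine ⟨?_, ?_⟩
      · rw [pow_succ, vl_mul ih.2 (EFK.U [y]), ih.1, pow_succ]
        rfl
      · rw [pow_succ]
        exact ih.2.mul (EFK.U [y])
  rw [← (hp m).1, U_rep hy]
  have h1 : (m.factorial : PowerSeries Qb) = PowerSeries.C (m.factorial : Qb) := by simp
  have h2 : Wf y 0 m s = ∑' n : ℕ, io (PowerSeries.coeff n (U (List.replicate m y))) * Complex.exp s ^ n := rfl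
  rw [h1, h2, vl, Bes.sr, ← tsum_mul_left]
  refine tsum_congr fun n => ?_
  rw [PowerSeries.coeff_C_mul, map_mul, map_natCast, mul_assoc]

/-! ### The recursions -/

/-- the integral of `s^n` times the function of the word -/
noncomputable def In (y : Qb) (b : ℝ) (a m n : ℕ) : ℂ := ∫ s in (0 : ℝ)..b, (s : ℂ) ^ n * Wf y a m s

theorem ofReal_deriv (s : ℝ) : HasDerivAt (fun s : ℝ => (s : ℂ)) 1 s := Complex.ofRealCLM.hasDerivAt

theorem cont_pow (n : ℕ) : Continuous fun s : ℝ => (s : ℂ) ^ n := Complex.continuous_ofReal.pow n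

theorem In_succ {y : Qb} (hy : y ≠ 0) (b : ℝ) (a m n : ℕ) :
    In y b a (m + 1) (n + 1) = (b : ℂ) ^ (n + 1) * Wf y (a + 1) (m + 1) b - ((n : ℂ) + 1) * In y b (a + 1) (m + 1) n := by
  have h1 : ∀ s : ℝ, HasDerivAt (fun s : ℝ => (s : ℂ) ^ (n + 1) * Wf y (a + 1) (m + 1) s)
      (((n : ℂ) + 1) * ((s : ℂ) ^ n * Wf y (a + 1) (m + 1) s) + (s : ℂ) ^ (n + 1) * Wf y a (m + 1) s) s := by
    intro s
    have h2 := ((ofReal_deriv s).pow (n + 1)).mul (Wf_deriv_succ hy a m s)
    refine HasDerivAt.congr_deriv h2 ?_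
    rw [Pi.pow_apply]
    push_cast
    ring
  have c1 : Continuous fun s : ℝ => ((n : ℂ) + 1) * ((s : ℂ) ^ n * Wf y (a + 1) (m + 1) s) :=
    continuous_const.mul ((cont_pow n).mul (Wf_continuous _ _ _))
  have c2 : Continuous fun s : ℝ => (s : ℂ) ^ (n + 1) * Wf y a (m + 1) s := (cont_pow _).mul (Wf_continuous _ _ _)
  have h3 := intervalIntegral.integral_eq_sub_of_hasDerivAt (a := (0 : ℝ)) (b := b) (fun s _ => h1 s)
    ((c1.add c2).intervalIntegrable _ _)
  rw [intervalIntegral.integral_add (c1.intervalIntegrable _ _) (c2.intervalIntegrable _ _),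
    intervalIntegral.integral_const_mul] at h3
  have h4 : In y b a (m + 1) (n + 1) = ∫ s in (0 : ℝ)..b, (s : ℂ) ^ (n + 1) * Wf y a (m + 1) s := rfl
  have h5 : In y b (a + 1) (m + 1) n = ∫ s in (0 : ℝ)..b, (s : ℂ) ^ n * Wf y (a + 1) (m + 1) s := rfl
  rw [h4, h5, eq_sub_iff_add_eq, add_comm, h3]
  simp

theorem In_zero {y : Qb} (hy : y ≠ 0) (b : ℝ) (a m : ℕ) :
    In y b a (m + 1) 0 = Wf y (a + 1) (m + 1) b - Wf y (a + 1) (m + 1) 0 := by
  have h3 := intervalIntegral.integral_eq_sub_of_hasDerivAt (a := (0 : ℝ)) (b := b) (fun s _ => Wf_deriv_succ hy a m s)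
    ((Wf_continuous y a (m + 1)).intervalIntegrable _ _)
  rw [← h3, In]
  exact intervalIntegral.integral_congr fun s _ => by simp

/-- the values of the functions of the words from the integrals -/
theorem Wf_mem {y : Qb} (hy : y ≠ 0) {b : ℝ} {L : Subfield ℂ} (hb : (b : ℂ) ∈ L) {m N : ℕ}
    (hI : ∀ n ≤ N, In y b 0 (m + 1) n ∈ L) (h0 : ∀ a ≤ N, Wf y (a + 1) (m + 1) 0 ∈ L) :
    ∀ a ≤ N, Wf y (a + 1) (m + 1) b ∈ L := by
  intro a
  induction a using Nat.strong_induction_on with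
  | _ a ih =>
    intro ha
    have h1 : ∀ r ≤ a, In y b r (m + 1) (a - r) ∈ L := by
      intro r
      induction r with
      | zero => intro _; exact hI _ (by omega)
      | succ r ihr =>
        intro hr
        have h2 := ihr (by omega)
        obtain ⟨n, hn⟩ : ∃ n, a - r = n + 1 := ⟨a - r - 1, by omega⟩
        rw [hn, In_succ hy] at h2
        have h3 := ih r (by omega) (by omega)
        have h4 : ((n : ℂ) + 1) * In y b (r + 1) (m + 1) n ∈ L := by
          have h5 := L.sub_mem (L.mul_mem (L.pow_mem hb (n + 1)) h3) h2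
          rwa [sub_sub_cancel] at h5
        have h6 : ((n : ℂ) + 1) ∈ L := L.add_mem (natCast_mem L n) L.one_mem
        have h7 : ((n : ℂ) + 1) ≠ 0 := by exact_mod_cast Nat.succ_ne_zero n
        have h8 : In y b (r + 1) (m + 1) n = ((n : ℂ) + 1)⁻¹ * (((n : ℂ) + 1) * In y b (r + 1) (m + 1) n) := by
          rw [← mul_assoc, inv_mul_cancel₀ h7, one_mul]
        rw [show a - (r + 1) = n by omega, h8]
        exact L.mul_mem (L.inv_mem h6) h4
    have h2 := h1 a le_rfl
    rw [Nat.sub_self, In_zero hy] at h2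
    have h3 := L.add_mem h2 (h0 a ha)
    rwa [sub_add_cancel] at h3

/-- the exponential integral as a function -/
noncomputable def ep (y : Qb) (c : ℂ) (s : ℝ) : ℂ := c - s - Wf y 0 1 s

theorem ep_continuous (y : Qb) (c : ℂ) : Continuous (ep y c) :=
  (continuous_const.sub Complex.continuous_ofReal).sub (Wf_continuous _ _ _)

/-- the mixed integrals -/
noncomputable def Qn (y : Qb) (c : ℂ) (b : ℝ) (n p j : ℕ) : ℂ :=
  ∫ s in (0 : ℝ)..b, (s : ℂ) ^ n * ep y c s ^ p * Wf y 0 1 s ^ j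

theorem Qn_continuous (y : Qb) (c : ℂ) (n p j : ℕ) : Continuous fun s : ℝ => (s : ℂ) ^ n * ep y c s ^ p * Wf y 0 1 s ^ j :=
  ((cont_pow n).mul ((ep_continuous y c).pow p)).mul ((Wf_continuous _ _ _).pow j)

theorem Qn_succ (y : Qb) (c : ℂ) (b : ℝ) (n p j : ℕ) :
    Qn y c b n p (j + 1) = c * Qn y c b n p j - Qn y c b (n + 1) p j - Qn y c b n (p + 1) j := by
  have c1 : Continuous fun s : ℝ => c * ((s : ℂ) ^ n * ep y c s ^ p * Wf y 0 1 s ^ j) :=
    continuous_const.mul (Qn_continuous y c n p j)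
  have c2 := Qn_continuous y c (n + 1) p j
  have c3 := Qn_continuous y c n (p + 1) j
  have c4 : Continuous fun s : ℝ => c * ((s : ℂ) ^ n * ep y c s ^ p * Wf y 0 1 s ^ j) -
      (s : ℂ) ^ (n + 1) * ep y c s ^ p * Wf y 0 1 s ^ j := c1.sub c2
  rw [Qn, Qn, Qn, Qn, ← intervalIntegral.integral_const_mul,
    ← intervalIntegral.integral_sub (c1.intervalIntegrable _ _) (c2.intervalIntegrable _ _),
    ← intervalIntegral.integral_sub (c4.intervalIntegrable _ _) (c3.intervalIntegrable _ _)]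
  refine intervalIntegral.integral_congr fun s _ => ?_
  show (s : ℂ) ^ n * ep y c s ^ p * Wf y 0 1 s ^ (j + 1) = c * ((s : ℂ) ^ n * ep y c s ^ p * Wf y 0 1 s ^ j) -
    (s : ℂ) ^ (n + 1) * ep y c s ^ p * Wf y 0 1 s ^ j - (s : ℂ) ^ n * ep y c s ^ (p + 1) * Wf y 0 1 s ^ j
  rw [pow_succ (ep y c s) p, ep]
  ring

theorem Qn_mem {y : Qb} {c : ℂ} {b : ℝ} {L : Subfield ℂ} (hb : (b : ℂ) ∈ L) (hc : c ∈ L) {N : ℕ}
    (hP : ∀ n p : ℕ, 1 ≤ p → n + p ≤ N → Qn y c b n p 0 ∈ L) : ∀ j n p : ℕ, n + p + j ≤ N → Qn y c b n p j ∈ L := by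
  intro j
  induction j with
  | zero =>
    intro n p h
    rcases p with _ | p
    · have h1 : Qn y c b n 0 0 = (b : ℂ) ^ (n + 1) / ((n : ℂ) + 1) := by
        rw [Qn]
        have h2 : ∀ s : ℝ, (s : ℂ) ^ n * ep y c s ^ 0 * Wf y 0 1 s ^ 0 = ((s ^ n : ℝ) : ℂ) := by
          intro s; push_cast; ring
        simp only [h2]
        rw [intervalIntegral.integral_ofReal, integral_pow]
        push_cast
        simp
      rw [h1]
      exact L.div_mem (L.pow_mem hb _) (L.add_mem (natCast_mem L n) L.one_mem)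
    · exact hP _ _ (by omega) (by omega)
  | succ j ih =>
    intro n p h
    rw [Qn_succ]
    exact L.sub_mem (L.sub_mem (L.mul_mem hc (ih n p (by omega))) (ih (n + 1) p (by omega))) (ih n (p + 1) (by omega))

/-- the values from the integrals of the powers of the exponential integral -/
theorem Wf_mem_of {y : Qb} (hy : y ≠ 0) {c : ℂ} {b : ℝ} {L : Subfield ℂ} (hb : (b : ℂ) ∈ L) (hc : c ∈ L) {N : ℕ}
    (hP : ∀ n p : ℕ, 1 ≤ p → n + p ≤ N → Qn y c b n p 0 ∈ L)
    (h0 : ∀ k j : ℕ, k + (j + 1) ≤ N → Wf y (k + 1) (j + 1) 0 ∈ L) :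
    ∀ k j : ℕ, k + (j + 1) ≤ N → Wf y (k + 1) (j + 1) b ∈ L := by
  intro k j hkj
  refine Wf_mem hy (N := N - (j + 1)) (m := j) hb (fun n hn => ?_) (fun a ha => h0 a j (by omega)) k (by omega)
  have h1 := Qn_mem (y := y) hb hc hP (j + 1) n 0 (by omega)
  have h2 : Qn y c b n 0 (j + 1) = ((j + 1).factorial : ℂ) * In y b 0 (j + 1) n := by
    rw [Qn, In, ← intervalIntegral.integral_const_mul]
    refine intervalIntegral.integral_congr fun s _ => ?_
    show (s : ℂ) ^ n * ep y c s ^ 0 * Wf y 0 1 s ^ (j + 1) = ((j + 1).factorial : ℂ) * ((s : ℂ) ^ n * Wf y 0 (j + 1) s)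
    rw [Wf_pow hy]
    ring
  have h3 : ((j + 1).factorial : ℂ) ≠ 0 := by exact_mod_cast (j + 1).factorial_ne_zero
  have h4 : In y b 0 (j + 1) n = ((j + 1).factorial : ℂ)⁻¹ * Qn y c b n 0 (j + 1) := by
    rw [h2, ← mul_assoc, inv_mul_cancel₀ h3, one_mul]
  rw [h4]
  exact L.mul_mem (L.inv_mem (natCast_mem L _)) h1

/-- the exponential integral -/
theorem ep_eq {y : Qb} {x : ℝ} (hx : 0 < x) (hyx : io y = -(x : ℂ)) (s : ℝ) :
    ((E1 (x * Real.exp s) : ℝ) : ℂ) = ep y ((E1 x : ℂ) + uv [y]) s := by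
  have hy : y ≠ 0 := by
    rintro rfl
    rw [map_zero] at hyx
    have : (x : ℂ) = 0 := by rw [← neg_eq_zero, ← hyx]
    exact hx.ne' (by exact_mod_cast this)
  have h1 : ∀ s : ℝ, HasDerivAt (fun s : ℝ => ((E1 (x * Real.exp s) : ℝ) : ℂ) - ep y ((E1 x : ℂ) + uv [y]) s) 0 s := by
    intro s
    have h2 := (E1_exp_deriv hx s).ofReal_comp
    have h3 : HasDerivAt (fun s : ℝ => ep y ((E1 x : ℂ) + uv [y]) s) (0 - 1 - ph y s * Wf y 0 0 s) s :=
      ((hasDerivAt_const s _).sub (ofReal_deriv s)).sub (Wf_deriv_zero hy 0 s)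
    refine HasDerivAt.congr_deriv (h2.sub h3) ?_
    have h4 : Wf y 0 0 s = 1 := hw_nil s
    rw [h4, ph, if_neg hy, hyx]
    push_cast
    ring_nf
  have h5 := is_const_of_deriv_eq_zero (f := fun s : ℝ => ((E1 (x * Real.exp s) : ℝ) : ℂ) - ep y ((E1 x : ℂ) + uv [y]) s)
    (fun s => (h1 s).differentiableAt) (fun s => (h1 s).deriv) s 0
  have h6 : Wf y 0 1 0 = uv [y] := Wf_zero y 0 1
  simp only [Real.exp_zero, mul_one] at h5
  have h7 : ep y ((E1 x : ℂ) + uv [y]) 0 = E1 x := by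
    rw [ep, h6]
    push_cast
    ring
  rw [h7, sub_self] at h5
  exact sub_eq_zero.1 h5

end Pool.Agent.H18.Po
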